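import Mathlib

/-!
# X170 : the parity-perturbed Conway-Mallows sequence (MP_c3a542_nt)

`b(n) = b(b(n-1)) + b(n - b(n-1)) + (-1)^n`.  Near the points `P_k`, `P_k = P_(k-1) + P_(k-3) + e_k`
(`e_k = 12` or `-14` alternately), the sequence repeats a fixed pattern; in particular
`b(P_k) = P_(k-3) + 7` or `P_(k-3) - 5`.
-/

set_option autoImplicit false

namespace Pool.Agent.X170.Conway

/-- `b(n)` is defined for all `n >= 1` by the recursion -/
def IsSeq (b : ℕ → ℤ) : Prop :=
  b 1 = 1 ∧ b 2 = 1 ∧ ∀ n : ℕ, 3 ≤ n → ∃ i j : ℕ, 1 ≤ i ∧ i ≤ n - 1 ∧ 1 ≤ j ∧ j ≤ n - 1 ∧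
    (i : ℤ) = b (n - 1) ∧ (j : ℤ) = n - b (n - 1) ∧ b n = b i + b j + (-1) ^ n

def loA : List ℤ := [
  -11, -11, -11, -11, -11, -9, -9, -9, -7, -7, -5, -5, -3, -3, -1, -1, 1, -1, 1, 1, 1, 1, 3, 3,
  5, 3, 5, 3, 5, 3, 7]

def hiA : List ℤ := [
  -7, -7, -7, -5, -5, -5, -5, -5, -3, -5, -3, -3, -3, -3, -1, -1, 1, -1, 1, 1, 1, 1, 3, 3, 5,
  3, 5, 3, 5, 3, 7]

def loB : List ℤ := [
  -29, -27, -25, -25, -23, -25, -21, -23, -21, -21, -19, -19, -17, -17, -15, -15, -15, -15,
  -13, -13, -11, -13, -11, -13, -9, -11, -9, -9, -7, -7, -5, -7, -5, -5, -5, -5, -5, -5, -5, -3]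

def hiB : List ℤ := [
  -13, -19, -17, -19, -15, -19, -15, -17, -15, -17, -15, -15, -15, -15, -13, -13, -13, -13,
  -11, -11, -11, -11, -9, -11, -9, -11, -7, -9, -7, -7, -5, -7, -5, -5, -5, -5, -5, -5, -5, -3]

def lo (ty : Bool) (t : ℤ) : ℤ :=
  if t < -30 then t + (if ty then 14 else -3)
  else (if ty then loA else loB).getD (t + 30).toNat 0

def hi (ty : Bool) (t : ℤ) : ℤ :=
  if t < -30 then (if ty then -3 else -11)
  else (if ty then hiA else hiB).getD (t + 30).toNat 0

def wp (ty : Bool) : ℤ := if ty then 0 else 9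

def e (ty : Bool) : ℤ := if ty then 12 else -14

def f (ty : Bool) : ℤ := if ty then 14 else -12

def sg (t : ℤ) : ℤ := if t % 2 = 0 then 1 else -1

/-- one instance of the closure property -/
def ok (ty : Bool) (t u : ℤ) : Prop :=
  u ≤ wp (!ty) ∧ t + e ty - u ≤ wp (!ty) ∧
    lo ty t ≤ lo (!ty) u + lo (!ty) (t + e ty - u) + f ty + sg t ∧
    hi (!ty) u + hi (!ty) (t + e ty - u) + f ty + sg t ≤ hi ty t

instance (ty : Bool) (t u : ℤ) : Decidable (ok ty t u) := by
  unfold ok; infer_instance

def chk (ty : Bool) : Bool :=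
  (List.range 90).all fun i => (List.range 90).all fun j =>
    decide ((i : ℤ) - 80 ≤ wp ty → lo ty ((i : ℤ) - 80 - 1) + j ≤ hi ty ((i : ℤ) - 80 - 1) →
      (lo ty ((i : ℤ) - 80 - 1) + j) % 2 = 1 → ok ty ((i : ℤ) - 80) (lo ty ((i : ℤ) - 80 - 1) + j))

theorem chkA : chk true = true := by decide +kernel

theorem chkB : chk false = true := by decide +kernel

def K (ty : Bool) : Bool :=
  (List.range 30).all fun i =>
    decide ((i : ℤ) - 30 ≤ (if ty then -1 else -10) →
      (if ty then -8 else 10) ≤ lo (!ty) ((i : ℤ) - 30) - ((i : ℤ) - 30) ∧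
      hi (!ty) ((i : ℤ) - 30) ≤ (if ty then -7 else 3))

theorem KA : K true = true := by decide +kernel

theorem KB : K false = true := by decide +kernel

theorem K_use (ty : Bool) (s : ℤ) (h1 : -30 ≤ s) (h2 : s ≤ (if ty then -1 else -10)) :
    (if ty then -8 else 10) ≤ lo (!ty) s - s ∧ hi (!ty) s ≤ (if ty then -7 else 3) := by
  have hK : K ty = true := by cases ty; exact KB; exact KA
  unfold K at hK
  rw [List.all_eq_true] at hK
  have h3 : s ≤ -1 := by
    refine h2.trans ?_
    cases ty <;> simp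
  have h := hK (s + 30).toNat (by rw [List.mem_range]; omega)
  rw [decide_eq_true_eq] at h
  have e1 : (((s + 30).toNat : ℕ) : ℤ) - 30 = s := by omega
  rw [e1] at h
  exact h h2

theorem sg_cases (t : ℤ) : sg t = 1 ∨ sg t = -1 := by
  unfold sg; split_ifs <;> simp

def rng (ty : Bool) : Bool :=
  (List.range 40).all fun i =>
    decide ((i : ℤ) - 30 ≤ wp ty → hi ty ((i : ℤ) - 30) - lo ty ((i : ℤ) - 30) < 90)

theorem rngA : rng true = true := by decide +kernel

theorem rngB : rng false = true := by decide +kernel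

theorem range_lt (ty : Bool) (s : ℤ) (h1 : -30 ≤ s) (h2 : s ≤ wp ty) : hi ty s - lo ty s < 90 := by
  have hK : rng ty = true := by cases ty; exact rngB; exact rngA
  unfold rng at hK
  rw [List.all_eq_true] at hK
  have h3 : wp ty ≤ 9 := by cases ty <;> simp [wp]
  have h := hK (s + 30).toNat (by rw [List.mem_range]; omega)
  rw [decide_eq_true_eq] at h
  have e1 : (((s + 30).toNat : ℕ) : ℤ) - 30 = s := by omega
  rw [e1] at h
  exact h h2

/-- the closure property -/
theorem closure (ty : Bool) (t u : ℤ) (ht : t ≤ wp ty) (h1 : lo ty (t - 1) ≤ u)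
    (h2 : u ≤ hi ty (t - 1)) (hu : u % 2 = 1) : ok ty t u := by
  by_cases h80 : -80 ≤ t
  · have hc : chk ty = true := by cases ty; exact chkB; exact chkA
    unfold chk at hc
    rw [List.all_eq_true] at hc
    have hwp : wp ty ≤ 9 := by cases ty <;> simp [wp]
    have h := hc (t + 80).toNat (by rw [List.mem_range]; omega)
    rw [List.all_eq_true] at h
    have e1 : (((t + 80).toNat : ℕ) : ℤ) - 80 = t := by omega
    by_cases hj : u - lo ty (t - 1) < 90
    · have h' := h (u - lo ty (t - 1)).toNat (by rw [List.mem_range]; omega)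
      rw [decide_eq_true_eq, e1] at h'
      have e2 : lo ty (t - 1) + (((u - lo ty (t - 1)).toNat : ℕ) : ℤ) = u := by omega
      rw [e2] at h'
      exact h' ht h2 hu
    · exfalso
      have h3 : hi ty (t - 1) - lo ty (t - 1) < 90 := by
        by_cases h30 : t - 1 < -30
        · unfold hi lo
          rw [if_pos h30, if_pos h30]
          cases ty <;> simp <;> omega
        · have h4 := range_lt ty (t - 1) (by omega) (by omega)
          omega
      omega
  · have hlo : lo ty (t - 1) = t - 1 + (if ty then 14 else -3) := by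
      unfold lo; rw [if_pos (by omega)]
    have hhi : hi ty (t - 1) = (if ty then -3 else -11) := by
      unfold hi; rw [if_pos (by omega)]
    have hlo' : lo ty t = t + (if ty then 14 else -3) := by
      unfold lo; rw [if_pos (by omega)]
    have hhi' : hi ty t = (if ty then -3 else -11) := by
      unfold hi; rw [if_pos (by omega)]
    rw [hlo] at h1
    rw [hhi] at h2
    unfold ok
    rw [hlo', hhi']
    have hs := sg_cases t
    set v := t + e ty - u with hv
    by_cases hu30 : u < -30
    · have lu : lo (!ty) u = u + (if !ty then 14 else -3) := by unfold lo; rw [if_pos hu30]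
      have hu' : hi (!ty) u = (if !ty then -3 else -11) := by unfold hi; rw [if_pos hu30]
      rw [lu, hu']
      by_cases hv30 : v < -30
      · have lv : lo (!ty) v = v + (if !ty then 14 else -3) := by unfold lo; rw [if_pos hv30]
        have hv' : hi (!ty) v = (if !ty then -3 else -11) := by unfold hi; rw [if_pos hv30]
        rw [lv, hv']
        cases ty <;> simp [e, f, wp] at * <;> omega
      · have hk := K_use ty v (by omega) (by cases ty <;> simp [e] at * <;> omega)
        cases ty <;> simp [e, f, wp] at * <;> omega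
    · have hk := K_use ty u (by omega) (by cases ty <;> simp at * <;> omega)
      have hv30 : v < -30 := by cases ty <;> simp [e] at * <;> omega
      have lv : lo (!ty) v = v + (if !ty then 14 else -3) := by unfold lo; rw [if_pos hv30]
      have hv' : hi (!ty) v = (if !ty then -3 else -11) := by unfold hi; rw [if_pos hv30]
      rw [lv, hv']
      cases ty <;> simp [e, f, wp] at * <;> omega

end Pool.Agent.X170.Conway
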