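import Pool.Agent.X170.Conway.Main

/-!
# X170 : the recursion never breaks down (MP_c3a542_nt)
-/

set_option autoImplicit false

namespace Pool.Agent.X170.Conway

def g (n : ℕ) : ℤ := B n - (if n % 2 = 0 then 1 else 0)

theorem B_one : B 1 = 1 := by rw [B]

theorem B_two : B 2 = 1 := by rw [B]

theorem B_eq (n : ℕ) (hn : 3 ≤ n) (h1 : 1 ≤ B (n - 1)) (h2 : B (n - 1) ≤ (n : ℤ) - 1) :
    B n = B (B (n - 1)).toNat + B ((n : ℤ) - B (n - 1)).toNat + (-1) ^ n := by
  obtain ⟨m, rfl⟩ : ∃ m, n = m + 3 := ⟨n - 3, by omega⟩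
  have e1 : m + 3 - 1 = m + 2 := by omega
  rw [e1] at h1 h2 ⊢
  have h3 : B (m + 3) = if h : 1 ≤ B (m + 2) ∧ B (m + 2) ≤ (m : ℤ) + 2 then
      B (B (m + 2)).toNat + B ((m : ℤ) + 3 - B (m + 2)).toNat + (-1) ^ (m + 3)
    else 0 := by
    rw [B]
  rw [h3, dif_pos ⟨h1, by push_cast at h2; omega⟩]
  push_cast
  rfl

theorem t2 : Int.toNat 2 = 2 := rfl

theorem t3 : Int.toNat 3 = 3 := rfl

theorem t5 : Int.toNat 5 = 5 := rfl

theorem B_three : B 3 = 1 := by
  rw [B_eq 3 le_rfl (by norm_num [B_two]) (by norm_num [B_two])]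
  norm_num [B_two, B_one, t2]

theorem B_four : B 4 = 3 := by
  rw [B_eq 4 (by norm_num) (by norm_num [B_three]) (by norm_num [B_three])]
  norm_num [B_two, B_one, B_three, t3]

theorem B_five : B 5 = 1 := by
  rw [B_eq 5 (by norm_num) (by norm_num [B_four]) (by norm_num [B_four])]
  norm_num [B_two, B_one, B_three, B_four, t2, t3]

theorem B_six : B 6 = 3 := by
  rw [B_eq 6 (by norm_num) (by norm_num [B_five]) (by norm_num [B_five])]
  norm_num [B_two, B_one, B_three, B_four, B_five, t5]

theorem inv (n : ℕ) : 1 ≤ n → B n % 2 = 1 ∧ (2 ≤ n → 2 * g n ≤ n) ∧ (3 ≤ n → 1 ≤ g n) ∧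
    (6 ≤ n → 2 ≤ g n) := by
  induction n using Nat.strong_induction_on with
  | _ n ih =>
    intro hn
    by_cases h7 : 7 ≤ n
    · obtain ⟨a1, a2, a3, a4⟩ := ih (n - 1) (by omega) (by omega)
      have b2 := a2 (by omega)
      have b4 := a4 (by omega)
      unfold g at b2 b4
      have hx3 : 3 ≤ B (n - 1) := by
        split_ifs at b4 <;> omega
      have hx : 2 * B (n - 1) ≤ n + 1 := by
        split_ifs at b2 <;> omega
      have hB := B_eq n (by omega) (by omega) (by omega)
      obtain ⟨i, hi⟩ : ∃ i : ℕ, (i : ℤ) = B (n - 1) := ⟨(B (n - 1)).toNat, by omega⟩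
      obtain ⟨j, hj⟩ : ∃ j : ℕ, (j : ℤ) = (n : ℤ) - B (n - 1) :=
        ⟨((n : ℤ) - B (n - 1)).toNat, by omega⟩
      have e1 : (B (n - 1)).toNat = i := by omega
      have e2 : ((n : ℤ) - B (n - 1)).toNat = j := by omega
      rw [e1, e2] at hB
      have hi3 : 3 ≤ i := by omega
      have hj3 : 3 ≤ j := by omega
      have hij : i + j = n := by omega
      obtain ⟨c1, c2, c3, _⟩ := ih i (by omega) (by omega)
      obtain ⟨d1, d2, d3, _⟩ := ih j (by omega) (by omega)
      have c2 := c2 (by omega)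
      have c3 := c3 hi3
      have d2 := d2 (by omega)
      have d3 := d3 hj3
      have hi2 : i % 2 = 1 := by omega
      have hg : g n = g i + g j := by
        unfold g
        rw [hB, sg_pow]
        unfold sg
        rcases Nat.mod_two_eq_zero_or_one n with h | h
        · have hj2 : j % 2 = 1 := by omega
          rw [if_pos (by omega), if_pos h, if_neg (by omega), if_neg (by omega)]
          ring
        · have hj2 : j % 2 = 0 := by omega
          rw [if_neg (by omega), if_neg (by omega), if_neg (by omega), if_pos hj2]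
          ring
      refine ⟨?_, fun _ => ?_, fun _ => ?_, fun _ => ?_⟩
      · rw [hB, sg_pow]
        have := sg_cases (n : ℤ)
        omega
      · rw [hg]; omega
      · rw [hg]; omega
      · rw [hg]; omega
    · have hc : n = 1 ∨ n = 2 ∨ n = 3 ∨ n = 4 ∨ n = 5 ∨ n = 6 := by omega
      rcases hc with rfl | rfl | rfl | rfl | rfl | rfl
      · norm_num [g, B_one]
      · norm_num [g, B_two]
      · norm_num [g, B_three]
      · norm_num [g, B_four]
      · norm_num [g, B_five]
      · norm_num [g, B_six]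

theorem isSeq_B : IsSeq B := by
  refine ⟨B_one, B_two, ?_⟩
  intro n hn
  obtain ⟨a1, a2, a3, _⟩ := inv (n - 1) (by omega)
  have a2 := a2 (by omega)
  have h1 : 1 ≤ B (n - 1) ∧ B (n - 1) ≤ (n : ℤ) - 1 := by
    by_cases h4 : 4 ≤ n
    · have a3 := a3 (by omega)
      unfold g at a2 a3
      split_ifs at a2 a3 <;> omega
    · have h3 : n = 3 := by omega
      subst h3
      norm_num [B_two]
  refine ⟨(B (n - 1)).toNat, ((n : ℤ) - B (n - 1)).toNat, by omega, by omega, by omega, by omega,
    by omega, by omega, B_eq n hn h1.1 h1.2⟩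

end Pool.Agent.X170.Conway
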