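import Pool.Agent.X170.Conway.Closure

/-!
# X170 : persistence of the peaks (MP_c3a542_nt)
-/

set_option autoImplicit false

namespace Pool.Agent.X170.Conway

theorem sg_pow (n : ℕ) : ((-1 : ℤ)) ^ n = sg n := by
  unfold sg
  rcases Nat.even_or_odd n with h | h
  · rw [h.neg_one_pow, if_pos]
    obtain ⟨k, rfl⟩ := h
    push_cast
    omega
  · rw [h.neg_one_pow, if_neg]
    obtain ⟨k, rfl⟩ := h
    push_cast
    omega

theorem odd_b {b : ℕ → ℤ} (hb : IsSeq b) : ∀ n : ℕ, 1 ≤ n → b n % 2 = 1 := by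
  intro n
  induction n using Nat.strong_induction_on with
  | _ n ih =>
    intro hn
    by_cases h3 : 3 ≤ n
    · obtain ⟨i, j, hi1, hi2, hj1, hj2, _, _, hs⟩ := hb.2.2 n h3
      have h1 := ih i (by omega) hi1
      have h2 := ih j (by omega) hj1
      have h3 := sg_cases (n : ℤ)
      rw [hs, sg_pow]
      omega
    · have : n = 1 ∨ n = 2 := by omega
      rcases this with rfl | rfl
      · rw [hb.1]; norm_num
      · rw [hb.2.1]; norm_num

/-- the values of `b` up to `P + wp` are described by `lo` and `hi` -/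
def Cl (b : ℕ → ℤ) (ty : Bool) (p q : ℤ) : Prop :=
  ∀ n : ℕ, 1 ≤ n → (n : ℤ) - p ≤ wp ty → lo ty (n - p) ≤ b n - q ∧ b n - q ≤ hi ty (n - p)

theorem step {b : ℕ → ℤ} (hb : IsSeq b) (ty : Bool) (p p1 q1 p3 q3 : ℤ)
    (h1 : Cl b (!ty) p1 q1) (h3 : Cl b (!ty) p3 q3) (hp : p = p1 + p3 + e ty)
    (hq : p3 = q1 + q3 - f ty) (hp2 : p % 2 = 0) (hp3 : p3 % 2 = 0) (hl1 : 100 ≤ p1)
    (hl3 : 100 ≤ p3) : Cl b ty p p3 := by
  have he : -14 ≤ e ty ∧ e ty ≤ 12 := by cases ty <;> simp [e]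
  intro n
  induction n with
  | zero => intro h; omega
  | succ n ih =>
    intro _ hn
    by_cases hn3 : 3 ≤ n + 1
    · obtain ⟨h5, h6⟩ := ih (by omega) (by push_cast at hn; omega)
      obtain ⟨i, j, hi1, hi2, hj1, hj2, hix, hjx, hs⟩ := hb.2.2 (n + 1) hn3
      rw [Nat.add_sub_cancel] at hi2 hj2 hix hjx
      have hodd := odd_b hb n (by omega)
      set t : ℤ := ((n + 1 : ℕ) : ℤ) - p with ht
      have ht1 : (n : ℤ) - p = t - 1 := by rw [ht]; push_cast; ring
      rw [ht1] at h5 h6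
      obtain ⟨g1, g2, g3, g4⟩ := closure ty t (b n - p3) hn h5 h6 (by omega)
      have e3 : (i : ℤ) - p3 = b n - p3 := by rw [hix]
      have e1 : (j : ℤ) - p1 = t + e ty - (b n - p3) := by
        rw [hjx, ht, hp]; ring
      obtain ⟨k3, k4⟩ := h3 i hi1 (by rw [e3]; exact g1)
      obtain ⟨k1, k2⟩ := h1 j hj1 (by rw [e1]; exact g2)
      rw [e3] at k3 k4
      rw [e1] at k1 k2
      have hsg : ((-1 : ℤ)) ^ (n + 1) = sg t := by
        rw [sg_pow, ht]
        unfold sg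
        have : ((n + 1 : ℕ) : ℤ) % 2 = (((n + 1 : ℕ) : ℤ) - p) % 2 := by omega
        rw [this]
      rw [hs, hsg]
      constructor
      · linarith
      · linarith
    · have h12 : n + 1 = 1 ∨ n + 1 = 2 := by omega
      have hb1 : b (n + 1) = 1 := by
        rcases h12 with h | h
        · rw [h]; exact hb.1
        · rw [h]; exact hb.2.1
      rw [hb1]
      have hlt : ((n + 1 : ℕ) : ℤ) - p < -30 := by
        rw [hp]; push_cast; omega
      unfold lo hi
      rw [if_pos hlt, if_pos hlt, hp]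
      push_cast
      cases ty <;> simp [e] at * <;> omega

/-- the positions of the peaks -/
def P : ℕ → ℤ
  | 0 => 68
  | 1 => 110
  | 2 => 150
  | n + 3 => P (n + 2) + P n + e ((n + 3) % 2 == 1)

theorem P_even : ∀ n : ℕ, P n % 2 = 0 ∧ P (n + 1) % 2 = 0 ∧ P (n + 2) % 2 = 0 := by
  intro n
  induction n with
  | zero => decide
  | succ n ih =>
    refine ⟨ih.2.1, ih.2.2, ?_⟩
    have h : P (n + 3) = P (n + 2) + P n + e ((n + 3) % 2 == 1) := rfl
    have he : e ((n + 3) % 2 == 1) % 2 = 0 := by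
      cases ((n + 3) % 2 == 1) <;> simp [e]
    show P (n + 3) % 2 = 0
    rw [h]
    omega

theorem P_big : ∀ n : ℕ, 100 ≤ P (n + 1) ∧ 100 ≤ P (n + 2) ∧ 100 ≤ P (n + 3) := by
  intro n
  induction n with
  | zero => decide
  | succ n ih =>
    refine ⟨ih.2.1, ih.2.2, ?_⟩
    have h : P (n + 4) = P (n + 3) + P (n + 1) + e ((n + 4) % 2 == 1) := rfl
    have he : -14 ≤ e ((n + 4) % 2 == 1) := by
      cases ((n + 4) % 2 == 1) <;> simp [e]
    show 100 ≤ P (n + 4)
    rw [h]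
    omega

/-! ### the base case -/

def T : List ℤ := [
  0, 1, 1, 1, 3, 1, 3, 3, 3, 3, 5, 3, 5, 3, 5, 5, 5, 5, 5, 5, 7, 7, 9, 7, 9, 7, 9, 7, 11, 7,
  11, 9, 11, 11, 11, 11, 11, 11, 11, 13, 11, 13, 11, 13, 13, 13, 15, 15, 17, 15, 17, 15, 17,
  15, 19, 15, 19, 15, 19, 15, 19, 15, 21, 17, 21, 19, 21, 21, 23, 21, 23, 23, 23, 23, 23, 23,
  23, 25, 23, 25, 23, 25, 23, 25, 23, 27, 23, 27, 23, 27, 25, 27, 27, 27, 29, 27, 29, 29, 29,
  29, 31, 31, 33, 33, 35, 33, 35, 33, 35, 33, 37, 33, 37, 33, 37, 33, 37, 33, 39, 35, 39, 35,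
  39, 35, 39, 35, 39, 35, 39, 37, 39, 39, 41, 39, 41, 41, 41, 41, 43, 41, 43, 41, 45, 41, 47,
  43, 47, 45, 47, 47, 49, 47, 49, 49, 49, 49, 49, 49, 49, 51, 49, 51, 49, 51, 49, 51, 49, 53,
  49, 53, 49, 53, 51, 53, 51, 53, 51, 53, 51, 53, 51, 53, 53, 53, 55, 53, 55, 55, 55, 55, 57,
  55, 57, 55, 57, 57, 57, 57, 57, 59, 57, 61, 57, 61, 57, 61, 59, 61, 61, 61, 63, 63, 65, 65,
  67, 67, 69, 67, 69, 69, 69, 69, 71, 71, 73, 71, 73, 71, 73, 71, 75, 71, 75, 71, 75, 71, 75,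
  71, 77, 73, 77, 73, 77, 73, 77, 73, 77, 73, 77, 75, 77, 75, 77, 75, 77, 75, 77, 75, 77, 77,
  79, 77, 79, 79, 79, 79, 81, 79, 81, 79, 81, 81, 81, 81, 81, 81, 83, 81, 83, 81, 85, 83, 85,
  83, 87, 83, 87, 83, 87, 83, 87, 83, 87, 85, 89, 85, 91, 85, 93, 85, 95, 85, 95, 87, 95, 89,
  95, 91, 95, 93, 95, 95, 95, 95, 97, 97, 99, 97, 99, 97, 101, 99, 101, 101, 103, 103, 105,
  103, 105, 105, 105, 105, 105, 105, 105, 107, 105, 107, 105, 107, 105, 107, 105, 109, 105,
  109, 105, 109, 107, 109, 107, 109, 107, 109, 107, 109, 107, 109, 109, 109, 109, 109, 109,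
  109, 109, 109, 109, 109, 111, 109, 111, 111, 111, 111, 113, 111, 113, 111, 113, 113, 113,
  113, 113, 113, 115, 113, 115, 113, 115, 113, 115, 115, 115, 115, 115, 117, 115, 117, 117,
  117, 117, 119, 119, 121, 119, 121, 119, 121, 119, 121, 119, 121, 119, 123, 119, 125, 119,
  127, 119, 129, 121, 129, 123, 129, 123, 129, 123, 129, 123, 129, 123, 129, 125, 129, 127,
  129, 129, 131, 131, 133, 131, 133, 133, 133, 135, 135, 137, 135, 137, 135, 139, 135, 139,
  137, 139, 139, 139, 139, 139, 141, 139, 141, 141, 141, 143, 141, 145, 143, 145, 145, 147,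
  147, 149, 149, 151, 149, 151, 151, 151, 151, 153, 153, 155, 153, 155, 153, 155, 153, 157]

def chkT : Bool :=
  decide (T.getD 1 0 = 1) && decide (T.getD 2 0 = 1) && (List.range 486).all fun i =>
    let x := T.getD (i + 2) 0
    decide (1 ≤ x) && decide (x ≤ (i : ℤ) + 2) &&
    decide (T.getD (i + 3) 0 = T.getD x.toNat 0 + T.getD ((i : ℤ) + 3 - x).toNat 0 + sg ((i : ℤ) + 3))

theorem chkT_true : chkT = true := by decide +kernel

theorem T_eq {b : ℕ → ℤ} (hb : IsSeq b) : ∀ n : ℕ, 1 ≤ n → n ≤ 488 → b n = T.getD n 0 := by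
  have hc := chkT_true
  unfold chkT at hc
  rw [Bool.and_eq_true, Bool.and_eq_true, decide_eq_true_eq, decide_eq_true_eq,
    List.all_eq_true] at hc
  obtain ⟨⟨c1, c2⟩, c3⟩ := hc
  intro n
  induction n using Nat.strong_induction_on with
  | _ n ih =>
    intro hn1 hn
    by_cases h3 : 3 ≤ n
    · obtain ⟨i, j, hi1, hi2, hj1, hj2, hix, hjx, hs⟩ := hb.2.2 n h3
      have h := c3 (n - 3) (by rw [List.mem_range]; omega)
      simp only [Bool.and_eq_true, decide_eq_true_eq] at h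
      obtain ⟨⟨_, _⟩, h5⟩ := h
      have a1 : n - 3 + 2 = n - 1 := by omega
      have a2 : n - 3 + 3 = n := by omega
      have a3 : ((n - 3 : ℕ) : ℤ) + 3 = n := by omega
      rw [a1, a2, a3] at h5
      have b1 := ih (n - 1) (by omega) (by omega) (by omega)
      rw [← b1, ← hix] at h5
      rw [hs, sg_pow, h5, ih i (by omega) hi1 (by omega), ih j (by omega) hj1 (by omega)]
      have a4 : ((n : ℤ) - (i : ℤ)).toNat = j := by rw [hix, ← hjx]; simp
      rw [a4, Int.toNat_natCast]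
    · have h12 : n = 1 ∨ n = 2 := by omega
      rcases h12 with rfl | rfl
      · rw [hb.1, c1]
      · rw [hb.2.1, c2]

def chkCl (ty : Bool) (p : ℕ) (q : ℤ) (w : ℕ) : Bool :=
  (List.range (p + w)).all fun i =>
    decide (lo ty ((i : ℤ) + 1 - p) ≤ T.getD (i + 1) 0 - q ∧
      T.getD (i + 1) 0 - q ≤ hi ty ((i : ℤ) + 1 - p))

theorem base1 : chkCl true 230 68 0 = true := by decide +kernel

theorem base2 : chkCl false 326 110 9 = true := by decide +kernel

theorem base3 : chkCl true 488 150 0 = true := by decide +kernel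

theorem cl_of_chk {b : ℕ → ℤ} (hb : IsSeq b) (ty : Bool) (p : ℕ) (q : ℤ) (w : ℕ)
    (hw : wp ty = w) (hpw : p + w ≤ 488) (h : chkCl ty p q w = true) : Cl b ty p q := by
  unfold chkCl at h
  rw [List.all_eq_true] at h
  intro n hn1 hn
  rw [hw] at hn
  have h1 := h (n - 1) (by rw [List.mem_range]; omega)
  rw [decide_eq_true_eq] at h1
  have a1 : n - 1 + 1 = n := by omega
  have a2 : ((n - 1 : ℕ) : ℤ) + 1 = n := by omega
  rw [a1, a2] at h1
  rw [T_eq hb n hn1 (by omega)]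
  exact h1

/-- all levels -/
theorem all_levels {b : ℕ → ℤ} (hb : IsSeq b) : ∀ n : ℕ,
    Cl b ((n + 3) % 2 == 1) (P (n + 3)) (P n) ∧ Cl b ((n + 4) % 2 == 1) (P (n + 4)) (P (n + 1)) ∧
      Cl b ((n + 5) % 2 == 1) (P (n + 5)) (P (n + 2)) := by
  intro n
  induction n with
  | zero =>
    refine ⟨?_, ?_, ?_⟩
    · have h := cl_of_chk hb true 230 68 0 rfl (by norm_num) base1
      exact h
    · have h := cl_of_chk hb false 326 110 9 rfl (by norm_num) base2
      exact h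
    · have h := cl_of_chk hb true 488 150 0 rfl (by norm_num) base3
      exact h
  | succ n ih =>
    obtain ⟨i1, i2, i3⟩ := ih
    refine ⟨i2, i3, ?_⟩
    show Cl b ((n + 6) % 2 == 1) (P (n + 6)) (P (n + 3))
    have hty : ∀ m : ℕ, ((m + 1) % 2 == 1) = !(m % 2 == 1) := by
      intro m
      rcases Nat.mod_two_eq_zero_or_one m with h | h
      · have : (m + 1) % 2 = 1 := by omega
        rw [h, this]; rfl
      · have : (m + 1) % 2 = 0 := by omega
        rw [h, this]; rfl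
    have t5 : (!((n + 6) % 2 == 1)) = ((n + 5) % 2 == 1) := by
      rw [hty (n + 5), Bool.not_not]
    have t3 : (!((n + 6) % 2 == 1)) = ((n + 3) % 2 == 1) := by
      rw [hty (n + 5), hty (n + 4), hty (n + 3), Bool.not_not, Bool.not_not]
    refine step hb ((n + 6) % 2 == 1) (P (n + 6)) (P (n + 5)) (P (n + 2)) (P (n + 3)) (P n)
      (by rw [t5]; exact i3) (by rw [t3]; exact i1) rfl ?_ (P_even (n + 6)).1 (P_even (n + 3)).1
      (P_big (n + 4)).1 (P_big (n + 2)).1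
    have h : P (n + 3) = P (n + 2) + P n + e ((n + 3) % 2 == 1) := rfl
    rw [h, ← t3]
    cases ((n + 6) % 2 == 1) <;> simp [e, f] <;> ring

theorem lo_zero (ty : Bool) : lo ty 0 = (if ty then 7 else -5) ∧ hi ty 0 = (if ty then 7 else -5) := by
  cases ty <;> decide

/-- the values at the peaks -/
theorem peak {b : ℕ → ℤ} (hb : IsSeq b) (n : ℕ) :
    b (P (n + 3)).toNat = P n + (if (n + 3) % 2 = 1 then 7 else -5) := by
  have h := (all_levels hb n).1
  have hbig := (P_big n).2.2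
  have hc : (((P (n + 3)).toNat : ℕ) : ℤ) = P (n + 3) := by omega
  obtain ⟨h1, h2⟩ := h (P (n + 3)).toNat (by omega) (by
    rw [hc, sub_self]; cases ((n + 3) % 2 == 1) <;> simp [wp])
  rw [hc, sub_self] at h1 h2
  rw [(lo_zero _).1] at h1
  rw [(lo_zero _).2] at h2
  have hif : (if ((n + 3) % 2 == 1) = true then (7 : ℤ) else -5) =
      if (n + 3) % 2 = 1 then 7 else -5 := by
    simp
  rw [hif] at h1 h2
  omega

theorem ratio : ∀ n : ℕ, 400 ≤ 16 * P (n + 9) - 5 * P (n + 12) ∧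
    400 ≤ 16 * P (n + 10) - 5 * P (n + 13) ∧ 400 ≤ 16 * P (n + 11) - 5 * P (n + 14) := by
  intro n
  induction n with
  | zero => decide
  | succ n ih =>
    refine ⟨ih.2.1, ih.2.2, ?_⟩
    have h1 : P (n + 12) = P (n + 11) + P (n + 9) + e ((n + 12) % 2 == 1) := rfl
    have h2 : P (n + 15) = P (n + 14) + P (n + 12) + e ((n + 15) % 2 == 1) := rfl
    have he1 : -14 ≤ e ((n + 12) % 2 == 1) := by
      cases ((n + 12) % 2 == 1) <;> simp [e]
    have he2 : e ((n + 15) % 2 == 1) ≤ 12 := by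
      cases ((n + 15) % 2 == 1) <;> simp [e]
    show 400 ≤ 16 * P (n + 12) - 5 * P (n + 15)
    omega

theorem P_tends : ∀ n : ℕ, (n : ℤ) ≤ P (n + 1) ∧ (n : ℤ) + 1 ≤ P (n + 2) ∧ (n : ℤ) + 2 ≤ P (n + 3) := by
  intro n
  induction n with
  | zero => decide
  | succ n ih =>
    refine ⟨by push_cast; exact ih.2.1, by push_cast; linarith [ih.2.2], ?_⟩
    have h : P (n + 4) = P (n + 3) + P (n + 1) + e ((n + 4) % 2 == 1) := rfl
    have he : -14 ≤ e ((n + 4) % 2 == 1) := by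
      cases ((n + 4) % 2 == 1) <;> simp [e]
    have hb := P_big n
    show ((n + 1 : ℕ) : ℤ) + 2 ≤ P (n + 4)
    rw [h]
    push_cast
    omega

/-- `b(n) > (5/16) n` infinitely often -/
theorem often {b : ℕ → ℤ} (hb : IsSeq b) (N : ℕ) : ∃ n : ℕ, N ≤ n ∧ 5 * (n : ℤ) < 16 * b n := by
  have h1 : b (P (N + 12)).toNat = P (N + 9) + (if (N + 12) % 2 = 1 then 7 else -5) :=
    peak hb (N + 9)
  have h2 := (ratio N).1
  have h3 : ((N + 11 : ℕ) : ℤ) ≤ P (N + 12) := (P_tends (N + 11)).1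
  have hbig : 100 ≤ P (N + 12) := (P_big (N + 9)).2.2
  refine ⟨(P (N + 12)).toNat, ?_, ?_⟩
  · push_cast at h3
    omega
  · have hc : (((P (N + 12)).toNat : ℕ) : ℤ) = P (N + 12) := by omega
    rw [hc]
    have h4 : b (P (N + 12)).toNat ≥ P (N + 9) - 5 := by
      rw [h1]; split_ifs <;> omega
    omega

/-! ### the sequence is defined for all `n` -/

def B : ℕ → ℤ
  | 0 => 0
  | 1 => 1
  | 2 => 1
  | n + 3 =>
    if h : 1 ≤ B (n + 2) ∧ B (n + 2) ≤ (n : ℤ) + 2 then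
      B (B (n + 2)).toNat + B ((n : ℤ) + 3 - B (n + 2)).toNat + (-1) ^ (n + 3)
    else 0
termination_by n => n
decreasing_by all_goals omega

end Pool.Agent.X170.Conway
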